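import Mathlib
import Pool.Agent.Helper96.FlowDefs

/-! Flow polynomials of multigraphs: definitions for the graph part. -/

open Polynomial Pool.Agent.Helper96.Flow

namespace Pool.Agent.H265R2.Fl

/-- `Q` is the flow polynomial of the multigraph `src, tgt` -/
def IsFP {V E : Type} [Fintype V] [DecidableEq V] [Fintype E] [DecidableEq E]
    (src tgt : E → V) (Q : ℤ[X]) : Prop :=
  ∀ k : ℕ, 1 ≤ k → Q.eval (k : ℤ) = (numNZ src tgt k : ℤ)

/-- the value at `q` of the flow polynomial of the multigraph with vertex set `Fin n` and edges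
`ends e`, `e : Fin m` (same formula as in the frozen statements of MP_62abf9_co) -/
noncomputable def fl (n m : ℕ) (ends : Fin m → Fin n × Fin n) (q : ℝ) : ℝ :=
  ∑ A ∈ (Finset.univ : Finset (Fin m)).powerset,
    (-1 : ℝ) ^ (m - A.card) *
      q ^ (A.card + Nat.card (SimpleGraph.fromRel
        (fun u v : Fin n => ∃ f ∈ A, ends f = (u, v))).ConnectedComponent - n)

/-- deleting an edge never increases the number of components -/
def Bridgeless (n m : ℕ) (ends : Fin m → Fin n × Fin n) : Prop :=
  ∀ e : Fin m,
    Nat.card (SimpleGraph.fromRel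
        (fun u v : Fin n => ∃ f ∈ (Finset.univ : Finset (Fin m)).erase e, ends f = (u, v))).ConnectedComponent
      = Nat.card (SimpleGraph.fromRel
        (fun u v : Fin n => ∃ f : Fin m, ends f = (u, v))).ConnectedComponent

end Pool.Agent.H265R2.Fl
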