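import Mathlib
import Pool.Agent.Helper96.FlowDefs
import Pool.Agent.H265R2.Fl.GDefs

/-! Deletion-contraction, series-parallel gadgets and the minimal graph with negative value. -/

open Polynomial Pool.Agent.Helper96.Flow

namespace Pool.Agent.H265R2.Fl

theorem poly_ext {P Q : ℤ[X]} (h : ∀ k : ℕ, 1 ≤ k → P.eval (k : ℤ) = Q.eval (k : ℤ)) : P = Q := by
  apply Polynomial.eq_of_infinite_eval_eq
  apply Set.infinite_of_injective_forall_mem (f := fun M : ℕ => ((M + 1 : ℕ) : ℤ))
  · intro a b hab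
    have hab' : ((a + 1 : ℕ) : ℤ) = ((b + 1 : ℕ) : ℤ) := hab
    have : a + 1 = b + 1 := by exact_mod_cast hab'
    omega
  · intro M
    exact h (M + 1) (by omega)

/-- Potts weight -/
def pw (k : ℕ) (a b : Fin k) : ℤ := (if a = b then (k : ℤ) else 0) - 1

section
variable {V E : Type} [Fintype V] [DecidableEq V] [Fintype E] [DecidableEq E]

theorem potts' (src tgt : E → V) (k : ℕ) (hk : 1 ≤ k) :
    (k : ℤ) ^ Fintype.card V * (numNZ src tgt k : ℤ)
      = ∑ σ : V → Fin k, ∏ e : E, pw k (σ (src e)) (σ (tgt e)) :=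
  potts src tgt k hk

theorem pw_sum (k : ℕ) (b : Fin k) : ∑ s : Fin k, pw k s b = 0 := by
  simp [pw]

theorem pw_comm (k : ℕ) (a b : Fin k) : pw k a b = pw k b a := by
  simp [pw, eq_comm]

theorem pw_pow (k : ℕ) (a s : Fin k) (d : ℕ) :
    pw k a s ^ d = (-1) ^ d + (if s = a then (((k : ℤ) - 1) ^ d - (-1) ^ d) else 0) := by
  by_cases h : s = a
  · simp [pw, h]
  · rw [if_neg h, pw, if_neg (fun h' => h h'.symm)]; ring

theorem prod_split {M : Type} [CommMonoid M] (e0 : E) (g : E → M) :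
    ∏ e, g e = g e0 * ∏ e : {e : E // e ≠ e0}, g e := by
  rw [← Finset.mul_prod_erase Finset.univ g (Finset.mem_univ e0)]
  congr 1
  rw [← Finset.prod_coe_sort]
  refine Fintype.prod_equiv (Equiv.subtypeEquivRight (by intro x; simp)) _ _ ?_
  intro x
  rfl

/-- contraction map -/
def ctr (u v : V) (w : V) : V := if w = v then u else w

theorem sum_ctr (k : ℕ) (u v : V) (huv : u ≠ v) (F : (V → Fin k) → ℤ) :
    ∑ σ : V → Fin k, F (σ ∘ ctr u v)
      = (k : ℤ) * ∑ σ : V → Fin k, if σ u = σ v then F σ else 0 := by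
  have h1 : ∑ σ : V → Fin k, F (σ ∘ ctr u v)
      = ∑ σ : V → Fin k, ∑ s : Fin k, if σ v = s then F (Function.update σ v (σ u)) else 0 := by
    refine Finset.sum_congr rfl fun σ _ => ?_
    rw [Finset.sum_ite_eq, if_pos (Finset.mem_univ _)]
    congr 1
    funext w
    simp only [Function.comp, ctr, Function.update_apply]
    split_ifs <;> rfl
  rw [h1, Finset.sum_comm]
  have h2 : ∀ s : Fin k, ∑ σ : V → Fin k, (if σ v = s then F (Function.update σ v (σ u)) else 0)
      = ∑ σ : V → Fin k, if σ u = σ v then F σ else 0 := by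
    intro s
    rw [← Finset.sum_filter, ← Finset.sum_filter]
    refine Finset.sum_bij' (fun σ _ => Function.update σ v (σ u)) (fun σ _ => Function.update σ v s)
      ?_ ?_ ?_ ?_ ?_
    · intro σ hσ
      simp [huv]
    · intro σ hσ
      simp
    · intro σ hσ
      rw [Finset.mem_filter] at hσ
      funext w
      by_cases hw : w = v
      · subst hw; simp [hσ.2]
      · simp [hw]
    · intro σ hσ
      rw [Finset.mem_filter] at hσ
      funext w
      by_cases hw : w = v
      · subst hw; simp [huv, hσ.2]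
      · simp [Function.update_apply, hw]
    · intro σ hσ
      rfl
  rw [Finset.sum_congr rfl (fun s _ => h2 s), Finset.sum_const, Finset.card_univ, Fintype.card_fin,
    nsmul_eq_mul]

theorem numNZ_loop (src tgt : E → V) (e0 : E) (h : src e0 = tgt e0) (k : ℕ) (hk : 1 ≤ k) :
    (numNZ src tgt k : ℤ) = ((k : ℤ) - 1) *
      (numNZ (fun e : {e : E // e ≠ e0} => src e) (fun e : {e : E // e ≠ e0} => tgt e) k : ℤ) := by
  have hk0 : (k : ℤ) ^ Fintype.card V ≠ 0 := by
    apply pow_ne_zero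
    exact_mod_cast (by omega : k ≠ 0)
  apply mul_left_cancel₀ hk0
  rw [potts' src tgt k hk]
  have h2 := potts' (fun e : {e : E // e ≠ e0} => src e) (fun e : {e : E // e ≠ e0} => tgt e) k hk
  calc _ = ((k : ℤ) - 1) * ((k : ℤ) ^ Fintype.card V *
        (numNZ (fun e : {e : E // e ≠ e0} => src e) (fun e : {e : E // e ≠ e0} => tgt e) k : ℤ)) := by
        rw [h2, Finset.mul_sum]
        refine Finset.sum_congr rfl fun σ _ => ?_
        rw [prod_split e0]
        congr 1
        rw [h]; simp [pw]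
    _ = _ := by ring

theorem numNZ_contract (src tgt : E → V) (e0 : E) (h : src e0 ≠ tgt e0) (k : ℕ) (hk : 1 ≤ k) :
    (numNZ (fun e : {e : E // e ≠ e0} => ctr (src e0) (tgt e0) (src e))
      (fun e : {e : E // e ≠ e0} => ctr (src e0) (tgt e0) (tgt e)) k : ℤ)
      = (numNZ src tgt k : ℤ) +
      (numNZ (fun e : {e : E // e ≠ e0} => src e) (fun e : {e : E // e ≠ e0} => tgt e) k : ℤ) := by
  have hk0 : (k : ℤ) ^ Fintype.card V ≠ 0 := by
    apply pow_ne_zero
    exact_mod_cast (by omega : k ≠ 0)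
  apply mul_left_cancel₀ hk0
  rw [mul_add, potts' src tgt k hk, potts' _ _ k hk, potts' _ _ k hk]
  have h1 := sum_ctr k (src e0) (tgt e0) h
    (fun σ => ∏ e : {e : E // e ≠ e0}, pw k (σ (src e)) (σ (tgt e)))
  simp only [Function.comp] at h1
  rw [h1, Finset.mul_sum, ← Finset.sum_add_distrib]
  refine Finset.sum_congr rfl fun σ _ => ?_
  rw [prod_split e0 (fun e => pw k (σ (src e)) (σ (tgt e)))]
  rw [pw]
  split_ifs <;> ring

end

/-- the gadget: the start of `e0` is moved to a new vertex, joined to the old start by `d`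
parallel edges -/
def gs {V E : Type} [DecidableEq E] (src : E → V) (e0 : E) (d : ℕ) : E ⊕ Fin d → Option V
  | Sum.inl e => if e = e0 then none else some (src e)
  | Sum.inr _ => some (src e0)

def gt {V E : Type} (tgt : E → V) (d : ℕ) : E ⊕ Fin d → Option V
  | Sum.inl e => some (tgt e)
  | Sum.inr _ => none

def delFun {E : Type} (e0 : E) (d : ℕ) : {e : E ⊕ Fin d // e ≠ Sum.inl e0} → {e : E // e ≠ e0} ⊕ Fin d
  | ⟨Sum.inl e, h⟩ => Sum.inl ⟨e, fun h' => h (by rw [h'])⟩
  | ⟨Sum.inr i, _⟩ => Sum.inr i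

def delInv {E : Type} (e0 : E) (d : ℕ) : {e : E // e ≠ e0} ⊕ Fin d → {e : E ⊕ Fin d // e ≠ Sum.inl e0}
  | Sum.inl e => ⟨Sum.inl e.1, fun h' => e.2 (Sum.inl.inj h')⟩
  | Sum.inr i => ⟨Sum.inr i, by simp⟩

def delEquiv {E : Type} (e0 : E) (d : ℕ) : {e : E ⊕ Fin d // e ≠ Sum.inl e0} ≃ {e : E // e ≠ e0} ⊕ Fin d where
  toFun := delFun e0 d
  invFun := delInv e0 d
  left_inv := by rintro ⟨e | i, h⟩ <;> rfl
  right_inv := by rintro (e | i) <;> rfl

section
variable {V E : Type} [Fintype V] [DecidableEq V] [Fintype E] [DecidableEq E]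

theorem sum_option (k : ℕ) (F : (Option V → Fin k) → ℤ) :
    ∑ σ : Option V → Fin k, F σ
      = ∑ σ : V → Fin k, ∑ s : Fin k, F (fun o => o.elim s σ) := by
  rw [← Fintype.sum_prod_type' (f := fun (σ : V → Fin k) (s : Fin k) => F (fun o => o.elim s σ))]
  refine Fintype.sum_equiv
    { toFun := fun σ => (fun v => σ (some v), σ none)
      invFun := fun p => fun o => o.elim p.2 p.1
      left_inv := by intro σ; funext o; cases o <;> rfl
      right_inv := by intro p; rfl } _ _ ?_
  intro σ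
  congr 1
  funext o
  cases o <;> rfl

theorem numNZ_gadget (src tgt : E → V) (e0 : E) (d : ℕ) (k : ℕ) (hk : 1 ≤ k) :
    (k : ℤ) * (numNZ (gs src e0 d) (gt tgt d) k : ℤ)
      = (((k : ℤ) - 1) ^ d - (-1) ^ d) * (numNZ src tgt k : ℤ) := by
  have hk0 : (k : ℤ) ^ Fintype.card V ≠ 0 := by
    apply pow_ne_zero
    exact_mod_cast (by omega : k ≠ 0)
  apply mul_left_cancel₀ hk0
  have h1 := potts' (gs src e0 d) (gt tgt d) k hk
  rw [Fintype.card_option, pow_succ, sum_option] at h1
  have h2 := potts' src tgt k hk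
  calc _ = (k : ℤ) ^ Fintype.card V * k * (numNZ (gs src e0 d) (gt tgt d) k : ℤ) := by ring
    _ = (((k : ℤ) - 1) ^ d - (-1) ^ d) * ((k : ℤ) ^ Fintype.card V * (numNZ src tgt k : ℤ)) := by
        rw [h1, h2, Finset.mul_sum]
        refine Finset.sum_congr rfl fun σ _ => ?_
        rw [prod_split e0 (fun e => pw k (σ (src e)) (σ (tgt e)))]
        have h3 : ∀ s : Fin k, ∏ e : E ⊕ Fin d, pw k ((gs src e0 d e).elim s σ) ((gt tgt d e).elim s σ)
            = (∏ e : {e : E // e ≠ e0}, pw k (σ (src e)) (σ (tgt e))) *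
              (pw k s (σ (tgt e0)) * pw k (σ (src e0)) s ^ d) := by
          intro s
          rw [Fintype.prod_sum_type]
          have h7 : ∀ e : E, pw k ((gs src e0 d (Sum.inl e)).elim s σ) ((gt tgt d (Sum.inl e)).elim s σ)
              = if e = e0 then pw k s (σ (tgt e)) else pw k (σ (src e)) (σ (tgt e)) := by
            intro e
            by_cases he : e = e0 <;> simp [gs, gt, he]
          rw [Finset.prod_congr rfl (fun e _ => h7 e), prod_split e0, if_pos rfl]
          have h4 : ∀ e : {e : E // e ≠ e0}, (if (e : E) = e0 then pw k s (σ (tgt e)) else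
              pw k (σ (src e)) (σ (tgt e))) = pw k (σ (src e)) (σ (tgt e)) := by
            intro e
            rw [if_neg e.2]
          rw [Finset.prod_congr rfl (fun e _ => h4 e)]
          simp only [gs, gt, Option.elim, Finset.prod_const, Finset.card_univ, Fintype.card_fin]
          ring
        simp only [h3]
        rw [← Finset.mul_sum]
        have h5 : ∑ s : Fin k, pw k s (σ (tgt e0)) * pw k (σ (src e0)) s ^ d
            = (((k : ℤ) - 1) ^ d - (-1) ^ d) * pw k (σ (src e0)) (σ (tgt e0)) := by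
          simp only [pw_pow, mul_add, Finset.sum_add_distrib, ← Finset.sum_mul, pw_sum, zero_mul,
            zero_add, mul_ite, mul_zero, Finset.sum_ite_eq', Finset.mem_univ, if_true]
          ring
        rw [h5]; ring
    _ = _ := by ring

theorem numNZ_gadget_del (src tgt : E → V) (e0 : E) (d : ℕ) (k : ℕ) (hk : 1 ≤ k) :
    (k : ℤ) * (numNZ (fun e : {e : E ⊕ Fin d // e ≠ Sum.inl e0} => gs src e0 d e)
        (fun e : {e : E ⊕ Fin d // e ≠ Sum.inl e0} => gt tgt d e) k : ℤ)
      = (((k : ℤ) - 1) ^ d + ((k : ℤ) - 1) * (-1) ^ d) *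
      (numNZ (fun e : {e : E // e ≠ e0} => src e) (fun e : {e : E // e ≠ e0} => tgt e) k : ℤ) := by
  have hk0 : (k : ℤ) ^ Fintype.card V ≠ 0 := by
    apply pow_ne_zero
    exact_mod_cast (by omega : k ≠ 0)
  apply mul_left_cancel₀ hk0
  have h1 := potts' (fun e : {e : E ⊕ Fin d // e ≠ Sum.inl e0} => gs src e0 d e)
        (fun e : {e : E ⊕ Fin d // e ≠ Sum.inl e0} => gt tgt d e) k hk
  rw [Fintype.card_option, pow_succ, sum_option] at h1
  have h2 := potts' (fun e : {e : E // e ≠ e0} => src e) (fun e : {e : E // e ≠ e0} => tgt e) k hk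
  calc _ = (k : ℤ) ^ Fintype.card V * k * (numNZ (fun e : {e : E ⊕ Fin d // e ≠ Sum.inl e0} => gs src e0 d e)
        (fun e : {e : E ⊕ Fin d // e ≠ Sum.inl e0} => gt tgt d e) k : ℤ) := by ring
    _ = (((k : ℤ) - 1) ^ d + ((k : ℤ) - 1) * (-1) ^ d) * ((k : ℤ) ^ Fintype.card V *
      (numNZ (fun e : {e : E // e ≠ e0} => src e) (fun e : {e : E // e ≠ e0} => tgt e) k : ℤ)) := by
        rw [h1, h2, Finset.mul_sum]
        refine Finset.sum_congr rfl fun σ _ => ?_
        have h3 : ∀ s : Fin k, ∏ e : {e : E ⊕ Fin d // e ≠ Sum.inl e0},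
            pw k ((gs src e0 d e).elim s σ) ((gt tgt d e).elim s σ)
            = (∏ e : {e : E // e ≠ e0}, pw k (σ (src e)) (σ (tgt e))) *
              (pw k (σ (src e0)) s ^ d) := by
          intro s
          have h6 : ∏ e : {e : E ⊕ Fin d // e ≠ Sum.inl e0},
            pw k ((gs src e0 d e).elim s σ) ((gt tgt d e).elim s σ)
            = ∏ e : {e : E // e ≠ e0} ⊕ Fin d, (Sum.elim (fun e : {e : E // e ≠ e0} => pw k (σ (src e)) (σ (tgt e)))
                (fun _ : Fin d => pw k (σ (src e0)) s) e) := by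
            refine Fintype.prod_equiv (delEquiv e0 d) _ _ ?_
            rintro ⟨e | i, h⟩
            · have he : e ≠ e0 := fun h' => h (by rw [h'])
              simp [gs, gt, he, delEquiv, delFun]
            · simp [gs, gt, delEquiv, delFun]
          rw [h6, Fintype.prod_sum_type]
          simp
        simp only [h3]
        rw [← Finset.mul_sum]
        have h5 : ∑ s : Fin k, pw k (σ (src e0)) s ^ d
            = (((k : ℤ) - 1) ^ d + ((k : ℤ) - 1) * (-1) ^ d) := by
          simp only [pw_pow, Finset.sum_add_distrib, Finset.sum_const, Finset.card_univ, Fintype.card_fin,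
            nsmul_eq_mul, Finset.sum_ite_eq', Finset.mem_univ, if_true]
          ring
        rw [h5]; ring
    _ = _ := by ring

end

/-- a graph with a non-loop edge, with its flow polynomial and the flow polynomial after deletion -/
def PairFP (f g : ℤ[X]) : Prop :=
  ∃ (V E : Type) (_ : Fintype V) (_ : DecidableEq V) (_ : Fintype E) (_ : DecidableEq E)
    (src tgt : E → V) (e0 : E), src e0 ≠ tgt e0 ∧ IsFP src tgt f ∧
    IsFP (fun e : {e : E // e ≠ e0} => src e) (fun e : {e : E // e ≠ e0} => tgt e) g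

theorem pair_step (d : ℕ) (P1 P0 : ℤ[X]) (h1 : X * P1 = (X - 1) ^ d - C ((-1) ^ d))
    (h0 : X * P0 = (X - 1) ^ d + (X - 1) * C ((-1) ^ d)) (f g : ℤ[X]) (h : PairFP f g) :
    PairFP (P1 * f) (P0 * g) := by
  obtain ⟨V, E, _, _, _, _, src, tgt, e0, hne, hf, hg⟩ := h
  refine ⟨Option V, E ⊕ Fin d, inferInstance, inferInstance, inferInstance, inferInstance,
    gs src e0 d, gt tgt d, Sum.inl e0, ?_, ?_, ?_⟩
  · simp [gs, gt]
  · intro k hk
    have hk0 : (k : ℤ) ≠ 0 := by exact_mod_cast (by omega : k ≠ 0)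
    apply mul_left_cancel₀ hk0
    rw [numNZ_gadget src tgt e0 d k hk, ← hf k hk]
    have := congrArg (fun p => p.eval (k : ℤ)) h1
    simp only [eval_mul, eval_X, eval_sub, eval_pow, eval_one, eval_C] at this
    rw [eval_mul, ← mul_assoc, this]
  · intro k hk
    have hk0 : (k : ℤ) ≠ 0 := by exact_mod_cast (by omega : k ≠ 0)
    apply mul_left_cancel₀ hk0
    rw [numNZ_gadget_del src tgt e0 d k hk, ← hg k hk]
    have := congrArg (fun p => p.eval (k : ℤ)) h0
    simp only [eval_mul, eval_X, eval_sub, eval_add, eval_pow, eval_one, eval_C] at this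
    rw [eval_mul, ← mul_assoc, this]

theorem pair_step2 (f g : ℤ[X]) (h : PairFP f g) : PairFP ((X - 2) * f) ((X - 1) * g) :=
  pair_step 2 (X - 2) (X - 1) (by simp; ring) (by simp; ring) f g h

theorem pair_step3 (f g : ℤ[X]) (h : PairFP f g) :
    PairFP ((X ^ 2 - 3 * X + 3) * f) (((X - 1) * (X - 2)) * g) :=
  pair_step 3 (X ^ 2 - 3 * X + 3) ((X - 1) * (X - 2)) (by
    have : (C ((-1 : ℤ) ^ 3) : ℤ[X]) = -1 := by simp
    rw [this]; ring) (by
    have : (C ((-1 : ℤ) ^ 3) : ℤ[X]) = -1 := by simp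
    rw [this]; ring) f g h

theorem pair_iter (f g : ℤ[X]) (h : PairFP f g) (a b : ℕ) :
    PairFP ((X - 2) ^ a * (X ^ 2 - 3 * X + 3) ^ b * f) ((X - 1) ^ a * ((X - 1) * (X - 2)) ^ b * g) := by
  induction a with
  | zero =>
    induction b with
    | zero => simpa using h
    | succ b ih =>
      have := pair_step3 _ _ ih
      have e1 : (X - 2) ^ 0 * (X ^ 2 - 3 * X + 3) ^ (b + 1) * f
        = (X ^ 2 - 3 * X + 3) * ((X - 2) ^ 0 * (X ^ 2 - 3 * X + 3) ^ b * f) := by ring
      have e2 : (X - 1) ^ 0 * ((X - 1) * (X - 2)) ^ (b + 1) * g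
        = ((X - 1) * (X - 2)) * ((X - 1) ^ 0 * ((X - 1) * (X - 2)) ^ b * g) := by ring
      rw [e1, e2]; exact this
  | succ a ih =>
    have := pair_step2 _ _ ih
    have e1 : (X - 2) ^ (a + 1) * (X ^ 2 - 3 * X + 3) ^ b * f
      = (X - 2) * ((X - 2) ^ a * (X ^ 2 - 3 * X + 3) ^ b * f) := by ring
    have e2 : (X - 1) ^ (a + 1) * ((X - 1) * (X - 2)) ^ b * g
      = (X - 1) * ((X - 1) ^ a * ((X - 1) * (X - 2)) ^ b * g) := by ring
    rw [e1, e2]; exact this

/-- invariance under relabelling -/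
theorem numNZ_equiv {V E V' E' : Type} [Fintype V] [DecidableEq V] [Fintype E] [DecidableEq E]
    [Fintype V'] [DecidableEq V'] [Fintype E'] [DecidableEq E'] (φ : V ≃ V') (ψ : E' ≃ E)
    (src tgt : E → V) (k : ℕ) (hk : 1 ≤ k) :
    numNZ (fun e => φ (src (ψ e))) (fun e => φ (tgt (ψ e))) k = numNZ src tgt k := by
  have hk0 : (k : ℤ) ^ Fintype.card V ≠ 0 := by
    apply pow_ne_zero
    exact_mod_cast (by omega : k ≠ 0)
  have h : (numNZ (fun e => φ (src (ψ e))) (fun e => φ (tgt (ψ e))) k : ℤ) = numNZ src tgt k := by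
    apply mul_left_cancel₀ hk0
    have h1 := potts' (fun e => φ (src (ψ e))) (fun e => φ (tgt (ψ e))) k hk
    rw [← Fintype.card_congr φ] at h1
    rw [h1, potts' src tgt k hk]
    refine Fintype.sum_equiv (Equiv.arrowCongr φ (Equiv.refl (Fin k))).symm _ _ ?_
    intro σ
    refine Fintype.prod_equiv ψ _ _ ?_
    intro e
    rfl
  exact_mod_cast h

theorem pair_final (f g : ℤ[X]) (h : PairFP f g) :
    ∃ (n m : ℕ) (ends : Fin m → Fin n × Fin n),
        IsFP (fun e => (ends e).1) (fun e => (ends e).2) (f + g) := by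
  obtain ⟨V, E, _, _, _, _, src, tgt, e0, hne, hf, hg⟩ := h
  have φ : V ≃ Fin (Fintype.card V) := Fintype.equivFin V
  have ψ : Fin (Fintype.card {e : E // e ≠ e0}) ≃ {e : E // e ≠ e0} :=
    (Fintype.equivFin {e : E // e ≠ e0}).symm
  refine ⟨Fintype.card V, Fintype.card {e : E // e ≠ e0}, fun i =>
    (φ (ctr (src e0) (tgt e0) (src (ψ i))), φ (ctr (src e0) (tgt e0) (tgt (ψ i)))), ?_⟩
  intro k hk
  have h1 := numNZ_equiv φ ψ (fun e : {e : E // e ≠ e0} => ctr (src e0) (tgt e0) (src e))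
      (fun e : {e : E // e ≠ e0} => ctr (src e0) (tgt e0) (tgt e)) k hk
  have h2 := numNZ_contract src tgt e0 hne k hk
  rw [eval_add, hf k hk, hg k hk, ← h2, ← h1]

theorem exists_pair (q0 : ℝ) (hq0 : 1 < q0) (N : ℕ) : ∀ (V E : Type) [Fintype V] [DecidableEq V]
    [Fintype E] [DecidableEq E] (src tgt : E → V) (Q : ℤ[X]), IsFP src tgt Q →
    aeval q0 Q < 0 → Fintype.card E = N →
    ∃ f g : ℤ[X], PairFP f g ∧ aeval q0 f < 0 ∧ 0 < aeval q0 g := by
  induction N with
  | zero =>
    intro V E _ _ _ _ src tgt Q hQ hneg hN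
    have : IsEmpty E := Fintype.card_eq_zero_iff.mp hN
    have h1 : Q = 1 := by
      apply poly_ext
      intro k hk
      rw [hQ k hk, eval_one]
      have hk0 : (k : ℤ) ^ Fintype.card V ≠ 0 := by
        apply pow_ne_zero
        exact_mod_cast (by omega : k ≠ 0)
      apply mul_left_cancel₀ hk0
      rw [potts' src tgt k hk]
      simp
    rw [h1] at hneg
    simp at hneg
    linarith
  | succ N ih =>
    intro V E _ _ _ _ src tgt Q hQ hneg hN
    have : Nonempty E := by
      rw [← Fintype.card_pos_iff]; omega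
    obtain ⟨e0⟩ := this
    obtain ⟨Qd, hQd⟩ := exists_flowPoly (fun e : {e : E // e ≠ e0} => src e)
      (fun e : {e : E // e ≠ e0} => tgt e)
    have hcard : Fintype.card {e : E // e ≠ e0} = N := by
      rw [Fintype.card_subtype_compl, Fintype.card_subtype_eq, hN]; omega
    by_cases hl : src e0 = tgt e0
    · have h1 : Q = (X - 1) * Qd := by
        apply poly_ext
        intro k hk
        rw [hQ k hk, numNZ_loop src tgt e0 hl k hk, eval_mul, hQd k hk]
        simp
      have h2 : aeval q0 Qd < 0 := by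
        rw [h1] at hneg
        simp only [map_mul, map_sub, aeval_X, map_one] at hneg
        by_contra hcon
        push Not at hcon
        have := mul_nonneg (sub_nonneg.mpr hq0.le) hcon
        linarith
      exact ih V {e : E // e ≠ e0} _ _ Qd hQd h2 hcard
    · obtain ⟨Qc, hQc⟩ := exists_flowPoly
        (fun e : {e : E // e ≠ e0} => ctr (src e0) (tgt e0) (src e))
        (fun e : {e : E // e ≠ e0} => ctr (src e0) (tgt e0) (tgt e))
      have h1 : Qc = Q + Qd := by
        apply poly_ext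
        intro k hk
        rw [hQc k hk, eval_add, hQ k hk, hQd k hk, numNZ_contract src tgt e0 hl k hk]
      by_cases hc : aeval q0 Qc < 0
      · exact ih V {e : E // e ≠ e0} _ _ Qc hQc hc hcard
      · push Not at hc
        refine ⟨Q, Qd, ⟨V, E, inferInstance, inferInstance, inferInstance, inferInstance, src, tgt, e0,
          hl, hQ, hQd⟩, hneg, ?_⟩
        rw [h1, map_add] at hc
        linarith

theorem gadget_family {V E : Type} [Fintype V] [DecidableEq V] [Fintype E] [DecidableEq E]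
    (src tgt : E → V) (Q : ℤ[X]) (hQ : IsFP src tgt Q) (q0 : ℝ) (hq0 : 2 < q0)
    (hneg : aeval q0 Q < 0) :
    ∃ f g : ℤ[X], aeval q0 f < 0 ∧ 0 < aeval q0 g ∧ ∀ a b : ℕ,
      ∃ (n m : ℕ) (ends : Fin m → Fin n × Fin n) (P : ℤ[X]),
        IsFP (fun e => (ends e).1) (fun e => (ends e).2) P ∧
        ∀ x : ℝ, aeval x P = (x - 2) ^ a * (x ^ 2 - 3 * x + 3) ^ b * aeval x f
          + (x - 1) ^ a * ((x - 1) * (x - 2)) ^ b * aeval x g := by
  obtain ⟨f, g, hfg, hf, hg⟩ := exists_pair q0 (by linarith) _ V E src tgt Q hQ hneg rfl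
  refine ⟨f, g, hf, hg, fun a b => ?_⟩
  obtain ⟨n, m, ends, h⟩ := pair_final _ _ (pair_iter f g hfg a b)
  refine ⟨n, m, ends, _, h, fun x => ?_⟩
  simp [map_ofNat]

end Pool.Agent.H265R2.Fl
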