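import Mathlib
import Pool.Agent.Helper96.FlowAssemble
import Pool.Agent.H265R2.Fl.Defs
import Pool.Agent.H265R2.Fl.GDefs

/-! Exact statements of the graph modules. -/

open Polynomial Pool.Agent.Helper96.Flow

namespace Pool.Agent.H265R2.Fl.Stubs

/- ---------- G1 (G1.lean): the average polynomial at real arguments ---------- -/
theorem isD_dP (q : ℝ) : IsD q (fun k => aeval q (dP k)) := sorry
theorem exists_neg_QL (q : ℝ) (m : ℕ) (hm : 1 ≤ m) (h : SS q (fun k => aeval q (dP k)) m < 0) :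
    ∃ L : List (Fin (2 * m) × Fin (2 * m)), aeval q (QL L) < 0 := sorry

/- ---------- G2 (G2.lean): minimal graph and the gadget family ---------- -/
theorem gadget_family {V E : Type} [Fintype V] [DecidableEq V] [Fintype E] [DecidableEq E]
    (src tgt : E → V) (Q : ℤ[X]) (hQ : IsFP src tgt Q) (q0 : ℝ) (hq0 : 2 < q0)
    (hneg : aeval q0 Q < 0) :
    ∃ f g : ℤ[X], aeval q0 f < 0 ∧ 0 < aeval q0 g ∧ ∀ a b : ℕ,
      ∃ (n m : ℕ) (ends : Fin m → Fin n × Fin n) (P : ℤ[X]),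
        IsFP (fun e => (ends e).1) (fun e => (ends e).2) P ∧
        ∀ x : ℝ, aeval x P = (x - 2) ^ a * (x ^ 2 - 3 * x + 3) ^ b * aeval x f
          + (x - 1) ^ a * ((x - 1) * (x - 2)) ^ b * aeval x g := sorry

/- ---------- G3 (G3.lean): roots near q0 ---------- -/
theorem root_near (f g : ℝ → ℝ) (hf : Continuous f) (hg : Continuous g) (q0 ε : ℝ) (hq0 : 3 < q0)
    (hε : 0 < ε) (h1 : f q0 < 0) (h2 : 0 < g q0) :
    ∃ (a b : ℕ) (x y : ℝ), |x - q0| < ε ∧
      (x - 2) ^ a * (x ^ 2 - 3 * x + 3) ^ b * f x + (x - 1) ^ a * ((x - 1) * (x - 2)) ^ b * g x = 0 ∧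
      (y - 2) ^ a * (y ^ 2 - 3 * y + 3) ^ b * f y + (y - 1) ^ a * ((y - 1) * (y - 2)) ^ b * g y < 0 :=
  sorry

/- ---------- G4 (G4.lean): the explicit formula; bridges ---------- -/
theorem fl_eq (n m : ℕ) (ends : Fin m → Fin n × Fin n) (Q : ℤ[X])
    (hQ : IsFP (fun e => (ends e).1) (fun e => (ends e).2) Q) (q : ℝ) :
    fl n m ends q = aeval q Q := sorry
theorem bridgeless_of_ne (n m : ℕ) (ends : Fin m → Fin n × Fin n) (q : ℝ)
    (h : fl n m ends q ≠ 0) : Bridgeless n m ends := sorry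

end Pool.Agent.H265R2.Fl.Stubs
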